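import Pool.Agent.R349.Short2

/-!
# The weak semi-abelian Schanuel conjecture on analytic curves: a bounded number of exceptions in small discs

Let `E_1, …, E_q` be pairwise non-isogenous complex elliptic curves with the lattices `Λ_1, …, Λ_q` and let
`G = G_m^s × ∏ E_(ty i)` (`i = 1, …, r`). Let `t_1, …, t_s` and `p_1, …, p_r` be analytic functions on a connected open
set `U`, the components of an analytic curve in the Lie algebra of `G`, such that no nontrivial combination `∑ m_k t_k`
with integral coefficients is constant, and for every `c` no nontrivial combination of the `p_i` of type `c` with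
coefficients in `End(E_c)` is constant: the image of the curve in `G` is in no translate (defined over `ℂ`) of a proper
algebraic subgroup. There is no other condition.

For a point `r` of the Lie algebra, `G` defined over the algebraic numbers, the conjecture says that the components of
`r` and of `exp_G(r)`, the numbers `t_k, exp(t_k), p_i, ℘(p_i)` (`℘'(p_i)` is algebraic over them), generate over the
field of the periods of `G` a field of transcendence degree at least `dim G = s + r`, if `exp_G(r)` is in no proper
translate defined over the algebraic numbers. We show that `s + r` fixed functions among these satisfy no approximate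
relation of bounded degree and height `T ^ A` at algebraic points of height at most `T`, with **at most `C` exceptions in
each disc of radius `T ^ (-δ)`**, for all number fields of degree at most `m`, for `δ > 0` arbitrary: let `X_1, …, X_n` be
finite sets of elements `x` of a number field `F` of degree at most `m`, of height at most `T`, with images in compact
sets `K_j`, each of the `X_j` of diameter at most `T ^ (-δ)`; for instance all elements of `X_j` can be fractions with
one fixed denominator `T`. For `n` curves in `n` groups and the tuples of `X_1 × … × X_n` all but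
`C ∑_j ∏_(i ≠ j) |X_i|` tuples are good, and there is a good one if all `|X_j| > C`. Good means that the
`∑ (s_j + r_j)` numbers satisfy no approximate relation of degree at most `d` and height at most `T ^ A` whose
coefficients are combinations of given complex numbers `ξ_1, …, ξ_g`, for instance of monomials in the periods of `G`,
and together with `π` no relation over `F`. The constants do not depend on the `ξ_i`. So the inequality of the
conjecture holds at these points in bounded degree and height relative to the field of the periods.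

The proof uses theorems of Ax on the exponential functions of these groups, relative to countable fields of constants
(`Pool.Agent.Y776.Cv.fix_sub`), and a determinant method for small discs (`Pool.Agent.R349.Gen.shortS`).
-/

set_option autoImplicit false

open NumberField
open scoped PeriodPair

namespace Pool.Agent.Results.MP_4aec10_nt.SmallDiscs

/-- An analytic curve in the Lie algebra of the product of a torus and of powers of elliptic curves. -/
structure Curve (U : Set ℂ) {q r s : ℕ} (Λ : Fin q → PeriodPair) (ty : Fin r → Fin q)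
    (p : Fin r → ℂ → ℂ) (t : Fin s → ℂ → ℂ) : Prop where
  isOpen : IsOpen U
  isPreconnected : IsPreconnected U
  nonempty : U.Nonempty
  pos : 0 < s + r
  /-- there is no nonzero homomorphism between different elliptic curves -/
  nonisogenous : ∀ c c', c ≠ c' → ∀ α : ℂ, (∀ w ∈ (Λ c).lattice, α * w ∈ (Λ c').lattice) → α = 0
  analytic_p : ∀ i, AnalyticOnNhd ℂ (p i) U
  p_notMem : ∀ i, ∀ z ∈ U, p i z ∉ (Λ (ty i)).lattice
  /-- no nontrivial combination of the `p_i` of type `c` with coefficients in the ring of endomorphisms of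
  the elliptic curve is constant -/
  independent_p : ∀ (c : Fin q) (a : Fin r → ℂ) (b : ℂ),
    (∀ i, ∀ w ∈ (Λ c).lattice, a i * w ∈ (Λ c).lattice) → (∀ i, ty i ≠ c → a i = 0) →
    (∀ z ∈ U, ∑ i, a i * p i z = b) → a = 0
  analytic_t : ∀ k, AnalyticOnNhd ℂ (t k) U
  /-- no nontrivial combination with integral coefficients of the `t_k` is constant -/
  independent_t : ∀ (m : Fin s → ℤ) (b : ℂ), (∀ z ∈ U, ∑ k, (m k : ℂ) * t k z = b) → m = 0

/-- The names of the functions `t_k`, `exp(t_k)`, `p_i`, `℘(p_i)`. -/
inductive Name (r s : ℕ) : Type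
  | t : Fin s → Name r s
  | expt : Fin s → Name r s
  | p : Fin r → Name r s
  | wp : Fin r → Name r s

/-- The values of the functions at the point `z`. -/
noncomputable def value {q r s : ℕ} (Λ : Fin q → PeriodPair) (ty : Fin r → Fin q) (p : Fin r → ℂ → ℂ)
    (t : Fin s → ℂ → ℂ) (z : ℂ) : Name r s → ℂ
  | Name.t k => t k z
  | Name.expt k => Complex.exp (t k z)
  | Name.p i => p i z
  | Name.wp i => ℘[Λ (ty i)] (p i z)

/-- The polynomials of degree at most `d` in each variable, all of whose coefficients are of the form `∑ ξ_i ι(c_i)`, where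
the `c_i` are integers of the number field `F` all of whose conjugates have absolute value at most `H`. -/
def Admissible {σ : Type} {g : ℕ} (F : Type) [Field F] [NumberField F] (ι : F →+* ℂ) (ξ : Fin g → ℂ) (d : ℕ) (H : ℝ)
    (P : MvPolynomial σ ℂ) : Prop :=
  (∀ y, P.degreeOf y ≤ d) ∧
    ∀ s, ∃ c : Fin g → 𝓞 F, (∀ i (φ : F →+* ℂ), ‖φ (c i)‖ ≤ H) ∧ P.coeff s = ∑ i, ξ i * ι (c i)

/-- The complex numbers `v` are good: every admissible polynomial takes at them a value which is at least `δ` times each of
its coefficients, and `π` and these numbers satisfy no relation `Q = 0` with a nonzero polynomial `Q` of degree at most `d`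
in each variable whose coefficients are integers of `F` with conjugates of absolute value at most `H`. -/
def Good {σ : Type} {g : ℕ} (F : Type) [Field F] [NumberField F] (ι : F →+* ℂ) (ξ : Fin g → ℂ) (d : ℕ)
    (H δ : ℝ) (v : σ → ℂ) : Prop :=
  (∀ P : MvPolynomial σ ℂ, Admissible F ι ξ d H P → ∀ s, δ * ‖P.coeff s‖ ≤ ‖MvPolynomial.aeval v P‖) ∧
  ∀ Q : MvPolynomial (Option σ) (𝓞 F), Q ≠ 0 → (∀ x, Q.degreeOf x ≤ d) →
    (∀ s (φ : F →+* ℂ), ‖φ ((Q.coeff s : 𝓞 F) : F)‖ ≤ H) →
    MvPolynomial.eval₂ (ι.comp (algebraMap (𝓞 F) F)) (fun o => o.elim (Real.pi : ℂ) v) Q ≠ 0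

/-- The element `x` of `F` is a quotient of integers all of whose conjugates have absolute value at most `T`. -/
def HeightLe (F : Type) [Field F] [NumberField F] (T : ℝ) (x : F) : Prop :=
  ∃ a b : 𝓞 F, b ≠ 0 ∧ (∀ φ : F →+* ℂ, ‖φ a‖ ≤ T ∧ ‖φ b‖ ≤ T) ∧ x = a / b

/-- the function with a given name -/
def mn {r s : ℕ} : Name r s → Y776.Cv.Nf r s := fun a => match a with
  | Name.t k => Sum.inl k
  | Name.expt k => Sum.inr (Sum.inl k)
  | Name.p i => Sum.inr (Sum.inr (Sum.inl i))
  | Name.wp i => Sum.inr (Sum.inr (Sum.inr (Sum.inr i)))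

theorem mn_val {q r s : ℕ} (Λ : Fin q → PeriodPair) (ty : Fin r → Fin q) (p : Fin r → ℂ → ℂ)
    (t : Fin s → ℂ → ℂ) (a : Name r s) :
    (fun z => value Λ ty p t z a) = Y776.Cv.yf Λ ty p t (mn a) := by
  funext z
  rcases a with a | a | a | a <;> rfl

theorem mn_or {r s : ℕ} (a : Y776.Cv.Nf r s) :
    (∃ b, mn b = a) ∨ ∃ i, a = Sum.inr (Sum.inr (Sum.inr (Sum.inl i))) := by
  rcases a with k | k | i | i | i
  · exact Or.inl ⟨Name.t k, rfl⟩
  · exact Or.inl ⟨Name.expt k, rfl⟩
  · exact Or.inl ⟨Name.p i, rfl⟩
  · exact Or.inr ⟨i, rfl⟩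
  · exact Or.inl ⟨Name.wp i, rfl⟩

/-- among `s + 2 r` of the functions at least `s + r` are not of the form `ζ(p_i)` -/
theorem exists_part {r s : ℕ} (e : Fin (s + 2 * r) → Y776.Cv.Nf r s) (he : Function.Injective e) :
    ∃ (f : Fin (s + r) → Fin (s + 2 * r)) (e' : Fin (s + r) → Name r s), Function.Injective f ∧
      Function.Injective e' ∧ ∀ k, mn (e' k) = e (f k) := by
  classical
  have hex : ∀ k : {k : Fin (s + 2 * r) // ¬ ∃ b, mn b = e k}, ∃ i,
      e k.1 = Sum.inr (Sum.inr (Sum.inr (Sum.inl i))) := fun k => (mn_or (e k.1)).resolve_left k.2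
  choose g hg using hex
  have hgi : Function.Injective g := by
    intro a b hab
    apply Subtype.ext
    apply he
    rw [hg a, hg b, hab]
  have h1 := Fintype.card_le_of_injective g hgi
  have h2 := Fintype.card_subtype_compl (fun k : Fin (s + 2 * r) => ∃ b, mn b = e k)
  have h4 : Fintype.card {k : Fin (s + 2 * r) // ∃ b, mn b = e k} ≤ Fintype.card (Fin (s + 2 * r)) :=
    Fintype.card_subtype_le _
  rw [Fintype.card_fin] at h1
  rw [Fintype.card_fin] at h2 h4
  have h5 : Fintype.card (Fin (s + r)) ≤ Fintype.card {k : Fin (s + 2 * r) // ∃ b, mn b = e k} := by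
    rw [Fintype.card_fin]
    omega
  obtain ⟨f⟩ := Function.Embedding.nonempty_of_card_le h5
  choose e' he' using fun k : Fin (s + r) => (f k).2
  have hfi : Function.Injective fun k : Fin (s + r) => (f k).1 := fun a b hab => f.injective (Subtype.ext hab)
  refine ⟨fun k => (f k).1, e', hfi, fun a b hab => ?_, he'⟩
  apply hfi
  apply he
  change e (f a).1 = e (f b).1
  rw [← he' a, ← he' b, hab]

/-- For `n` curves (equal or different) one can choose, for each `j`, `s_j + r_j` different functions `e_j`
among the `2 s_j + 2 r_j` functions of the `j`-th curve with the property stated above, for all compact sets `K_j`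
contained in `U_j`, and all `m`, `g`, `d`, `A` and `δ > 0`. -/
theorem result {n : ℕ} {q r s : Fin n → ℕ} (U : Fin n → Set ℂ) (Λ : ∀ j, Fin (q j) → PeriodPair)
    (ty : ∀ j, Fin (r j) → Fin (q j)) (p : ∀ j, Fin (r j) → ℂ → ℂ) (t : ∀ j, Fin (s j) → ℂ → ℂ)
    (hU : ∀ j, Curve (U j) (Λ j) (ty j) (p j) (t j)) :
    ∃ e : ∀ j, Fin (s j + r j) → Name (r j) (s j), (∀ j, Function.Injective (e j)) ∧
      ∀ K : Fin n → Set ℂ, (∀ j, IsCompact (K j)) → (∀ j, K j ⊆ U j) → ∀ (m g d : ℕ) (A δ : ℝ), 0 < δ →
        ∃ (B : ℝ) (C : ℕ) (T₀ : ℝ), ∀ (F : Type) [Field F] [NumberField F], Module.finrank ℚ F ≤ m →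
          ∀ (ι : F →+* ℂ) (ξ : Fin g → ℂ) (T : ℝ), T₀ ≤ T → ∀ X : Fin n → Finset F,
            (∀ j, ∀ x ∈ X j, ι x ∈ K j ∧ HeightLe F T x) → (∀ j, ∀ x ∈ X j, ∀ y ∈ X j, ‖ι x - ι y‖ ≤ T ^ (-δ)) →
            (({x : Fin n → F | (∀ j, x j ∈ X j) ∧ ¬ Good F ι ξ d (T ^ A) (T ^ (-B))
              (fun k : Σ j, Fin (s j + r j) =>
                value (Λ k.1) (ty k.1) (p k.1) (t k.1) (ι (x k.1)) (e k.1 k.2))}.ncard : ℝ) ≤
              C * ∑ j, ∏ i ∈ Finset.univ.erase j, ((X i).card : ℝ)) ∧
            ((∀ j, C < (X j).card) → ∃ x : Fin n → F, (∀ j, x j ∈ X j) ∧ Good F ι ξ d (T ^ A) (T ^ (-B))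
              (fun k : Σ j, Fin (s j + r j) =>
                value (Λ k.1) (ty k.1) (p k.1) (t k.1) (ι (x k.1)) (e k.1 k.2))) := by
  classical
  have hF : ∀ j, Y776.Cv.FxM (U j) (Λ j) (ty j) (p j) (t j) := fun j =>
    { isOpen := (hU j).isOpen, conn := (hU j).isPreconnected, ni := (hU j).nonisogenous
      ua := (hU j).analytic_p, un := (hU j).p_notMem, ui := (hU j).independent_p
      la := (hU j).analytic_t, li := (hU j).independent_t }
  choose e he hL using fun j => Y776.Cv.fix_sub (hF j) (hU j).pos (hU j).nonempty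
  choose f e' hf he' hfe using fun j => exists_part (e j) (he j)
  refine ⟨e', he', ?_⟩
  intro K hK hKU m g d A δ hδ
  have hfun : ∀ (j : Fin n) (k : Fin (s j + r j)),
      (fun z => value (Λ j) (ty j) (p j) (t j) z (e' j k)) = Y776.Cv.yf (Λ j) (ty j) (p j) (t j) (e j (f j k)) := by
    intro j k
    rw [mn_val, hfe j k]
  exact Pool.Agent.R349.Gen.shortS m n g d (κ := fun j => Fin (s j + r j)) (fun j => (hU j).isOpen)
    (fun j => (hU j).isPreconnected) (fun j k z => value (Λ j) (ty j) (p j) (t j) z (e' j k))
    (fun j k => by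
      rw [hfun j k]
      exact Y776.Cv.yf_an (hF j) _)
    (fun j t' ht => by
      have h1 : (fun (k : Fin (s j + r j)) z => value (Λ j) (ty j) (p j) (t j) z (e' j k)) = fun k =>
          Y776.Cv.yf (Λ j) (ty j) (p j) (t j) (e j (f j k)) :=
        funext fun k => hfun j k
      rw [h1]
      exact Y776.Cv.LocInd.comp_inj (hL j t' ht) (hf j)) K hK hKU A δ hδ

end Pool.Agent.Results.MP_4aec10_nt.SmallDiscs
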