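import Mathlib
import Pool.Agent.R350.HU

/-!
# Translates of every point of the Lie algebra of a split semi-abelian variety by points of groups

Let `G = 𝔾ₘ ^ s × E_1 × ⋯ × E_n` with arbitrary elliptic curves `E_i = ℂ / Ω_i` over the algebraic numbers
(with or without complex multiplication, repetitions are allowed), and let `r₀ = (τ, π)` be an ARBITRARY
point of `Lie G_ℂ = ℂ ^ s × ℂ ^ n`.  We translate `r₀` by the logarithms of algebraic points of a finitely
generated subgroup of `G`: `r = (t, p)` with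

  `t_l = τ_l + ∑_j m_{l j} a_{l j}`,  `p_i = π_i + ∑_j m_{i j} u_{i j}`,  `m` integral,

where `a_{l 1}, …, a_{l R}` are `ℚ`-linearly independent logarithms of algebraic numbers and
`u_{i 1}, …, u_{i R}` elliptic logarithms of algebraic points of `E_i`, linearly independent over
`End (E_i) ⊗ ℚ`.

We prove: for all but `C |A| ^ ((s + n - 1) R + c)` of the `|A| ^ ((s + n) R)` parameters `m` with values
in any finite set `A` of integers, every polynomial relation of degree at most `D` with algebraic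
coefficients between arbitrary constants `θ_1, …, θ_q` (for instance the periods of `G`), the components
`exp (t_l)`, `℘ (p_i)`, `℘' (p_i)` of `exp_G (r)` and the components `t_l`, `p_i` of `r` is an identity in the
components of `r`.  Here `c` depends only on `q`, `s`, `n` and `D`, and `C` on these numbers and `R`; they do
not depend on `r₀`, `θ` and the group.

So in degree `D` the components of `r` contribute the full dimension of `G` to the transcendence degree of
the problem, for almost all translates of `r₀`.  For the proof the relations are multiplied by powers of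
`℘ (π_i) - ℘ (v_i)`, where `v_i = p_i - π_i`, and become relations with coefficients in a fixed space of
finite dimension, which contains the monomials in the `θ`, `exp (τ_l)`, `℘ (π_i)` and `℘' (π_i)` (addition
theorem); relations of this kind between the components of `r` are only possible on a set of small
dimension by an argument with derivations of ultrapowers of `ℂ` (`Pool.Agent.R350.HO`, `HP`).  The only
facts from transcendence theory which are used are the theorems of Baker and Masser on linear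
independence (in the starting library).
-/

set_option autoImplicit false

open scoped PeriodPair

noncomputable section

namespace Pool.Agent.Results.MP_4aec10_nt.SplitTranslates

open Module MvPolynomial

/-- The field of algebraic numbers. -/
abbrev Qbar : IntermediateField ℚ ℂ := algebraicClosure ℚ ℂ

/-- `β` belongs to the field `k = End(ℂ/Ω) ⊗ ℚ`: some multiple `m β`, `m ≥ 1`, maps the lattice `Ω`
to itself. -/
def IsMult (L : PeriodPair) (β : ℂ) : Prop :=
  ∃ m : ℕ, 0 < m ∧ ∀ ω ∈ L.lattice, (m : ℂ) * β * ω ∈ L.lattice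

/-- The lattice has algebraic invariants, and the `u_j` are elliptic logarithms of algebraic points
(the elements of the lattice are allowed), linearly independent over `k`. -/
def EllipticLogs (L : PeriodPair) {R : ℕ} (u : Fin R → ℂ) : Prop :=
  IsAlgebraic ℚ L.g₂ ∧ IsAlgebraic ℚ L.g₃ ∧
  (∀ j, u j ∈ L.lattice ∨ IsAlgebraic ℚ (℘[L] (u j))) ∧
  ∀ β : Fin R → ℂ, (∀ j, IsMult L (β j)) → ∑ j, β j * u j = 0 → ∀ j, β j = 0

variable {q s n R : ℕ}

/-- The components `t_l = τ_l + ∑_j m_{l j} a_{l j}`. -/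
def logarithm (τ : Fin s → ℂ) (a : Fin s → Fin R → ℂ) (m : Fin s ⊕ Fin n → Fin R → ℤ) (l : Fin s) : ℂ :=
  τ l + ∑ j, (m (Sum.inl l) j : ℂ) * a l j

/-- The components `p_i = π_i + ∑_j m_{i j} u_{i j}`. -/
def point (π : Fin n → ℂ) (u : Fin n → Fin R → ℂ) (m : Fin s ⊕ Fin n → Fin R → ℤ) (i : Fin n) : ℂ :=
  π i + ∑ j, (m (Sum.inr i) j : ℂ) * u i j

/-- The components of `exp_G(t, p)`: the numbers `exp(t_l)`, `℘(p_i)`, `℘'(p_i)`. -/
def image (L : Fin n → PeriodPair) (t : Fin s → ℂ) (p : Fin n → ℂ) : Fin s ⊕ (Fin n ⊕ Fin n) → ℂ :=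
  Sum.elim (fun l => Complex.exp (t l)) (Sum.elim (fun i => ℘[L i] (p i)) (fun i => ℘'[L i] (p i)))

/-- No component of the point on a curve is `0`, and every polynomial relation of total degree at most
`D` with algebraic coefficients between the constants `θ`, the components of `exp_G(r)` and the
components of `r = (t, p)` is an identity in the components of `r`. -/
def Good (D : ℕ) (L : Fin n → PeriodPair) (θ : Fin q → ℂ) (t : Fin s → ℂ) (p : Fin n → ℂ) : Prop :=
  (∀ i, p i ∉ (L i).lattice) ∧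
  ∀ P : MvPolynomial ((Fin q ⊕ (Fin s ⊕ (Fin n ⊕ Fin n))) ⊕ (Fin s ⊕ Fin n)) Qbar, P.totalDegree ≤ D →
    aeval (Sum.elim (Sum.elim θ (image L t p)) (Sum.elim t p)) P = 0 →
    ∀ y : Fin s ⊕ Fin n → ℂ, aeval (Sum.elim (Sum.elim θ (image L t p)) y) P = 0

open Pool.Agent.W245.EB

theorem prod_mem_pow {V : Submodule Qb ℂ} {ι : Type} (S : Finset ι) (f : ι → ℂ)
    {k : ℕ} (h : ∀ i ∈ S, f i ∈ V ^ k) : ∏ i ∈ S, f i ∈ V ^ (k * S.card) := by
  classical
  induction S using Finset.induction_on with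
  | empty =>
    rw [Finset.prod_empty, Finset.card_empty, mul_zero, pow_zero]
    exact Submodule.one_le.1 le_rfl
  | insert a S ha ih =>
    rw [Finset.prod_insert ha, Finset.card_insert_of_notMem ha]
    exact Pool.Agent.R350.pow_mul_mem (h a (Finset.mem_insert_self _ _))
      (ih fun i hi => h i (Finset.mem_insert_of_mem hi)) (by ring)

/-- **Main result.** -/
theorem result (q s n D : ℕ) (hD : 1 ≤ D) : ∃ c : ℕ, ∀ R : ℕ, ∃ C : ℕ,
    -- logarithms of algebraic numbers
    ∀ (a : Fin s → Fin R → ℂ), (∀ l j, IsAlgebraic ℚ (Complex.exp (a l j))) →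
    (∀ l, LinearIndependent ℚ (a l)) →
    -- elliptic logarithms of algebraic points
    ∀ (L : Fin n → PeriodPair) (u : Fin n → Fin R → ℂ), (∀ i, EllipticLogs (L i) (u i)) →
    -- an arbitrary point of the Lie algebra and arbitrary constants
    ∀ (τ : Fin s → ℂ) (π : Fin n → ℂ) (θ : Fin q → ℂ),
    ∀ A : Finset ℤ, A.Nonempty →
      {m : Fin s ⊕ Fin n → Fin R → ℤ | (∀ i j, m i j ∈ A) ∧
        ¬ Good D L θ (logarithm τ a m) (point π u m)}.ncard ≤
      C * A.card ^ ((s + n - 1) * R + c) := by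
  classical
  set K := q * D + s * D + n * (8 * D) + 1 with hK
  refine ⟨(1 + (q + (s + n * 4))) ^ K * (s + n + D).choose D, fun R => ?_⟩
  obtain ⟨C, hC⟩ := Pool.Agent.R350.fam_count (s + n) R ((1 + (q + (s + n * 4))) ^ K) D
  refine ⟨C, ?_⟩
  intro a ha hli L u hu τ π θ A hA
  -- the space of coefficients
  let b : Unit ⊕ (Fin q ⊕ (Fin s ⊕ (Fin n × Fin 4))) → ℂ :=
    Sum.elim (fun _ => 1) (Sum.elim θ (Sum.elim (fun l => Complex.exp (τ l))
      (fun x => ![℘[L x.1] (π x.1), ℘'[L x.1] (π x.1), (L x.1).ω₁, (L x.1).ω₂] x.2)))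
  set V : Submodule Qb ℂ := Submodule.span Qb (Set.range b) with hV
  have hVf : FiniteDimensional Qb V := FiniteDimensional.span_of_finite _ (Set.finite_range _)
  have hVr : finrank Qb V ≤ 1 + (q + (s + n * 4)) := by
    refine (finrank_range_le_card b).trans (le_of_eq ?_)
    simp only [Fintype.card_sum, Fintype.card_unit, Fintype.card_fin, Fintype.card_prod]
  have hb : ∀ x, b x ∈ V := fun x => Submodule.subset_span ⟨x, rfl⟩
  have h1V : (1 : ℂ) ∈ V := hb (Sum.inl ())
  have hθV : ∀ i, θ i ∈ V := fun i => hb (Sum.inr (Sum.inl i))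
  have hτV : ∀ l, Complex.exp (τ l) ∈ V := fun l => hb (Sum.inr (Sum.inr (Sum.inl l)))
  have hXV : ∀ i, ℘[L i] (π i) ∈ V := fun i => hb (Sum.inr (Sum.inr (Sum.inr (i, 0))))
  have hYV : ∀ i, ℘'[L i] (π i) ∈ V := fun i => hb (Sum.inr (Sum.inr (Sum.inr (i, 1))))
  have hω1 : ∀ i, (L i).ω₁ ∈ V := fun i => hb (Sum.inr (Sum.inr (Sum.inr (i, 2))))
  have hω2 : ∀ i, (L i).ω₂ ∈ V := fun i => hb (Sum.inr (Sum.inr (Sum.inr (i, 3))))
  obtain ⟨hWf, hWr⟩ := Pool.Agent.R350.finrank_pow_bound V K
  have hlat : ∀ i, ∀ ω ∈ (L i).lattice, ω ∈ V := by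
    intro i ω hω
    obtain ⟨x, y, h⟩ := PeriodPair.mem_lattice.1 hω
    rw [← h]
    exact V.add_mem (V.smul_mem (⟨x, intCast_mem QB x⟩ : Qb) (hω1 i))
      (V.smul_mem (⟨y, intCast_mem QB y⟩ : Qb) (hω2 i))
  set T := {m : Fin s ⊕ Fin n → Fin R → ℤ | (∀ i j, m i j ∈ A) ∧
    ¬ Good D L θ (logarithm τ a m) (point π u m)} with hT
  have hfin : T.Finite := by
    have h1 : ((Fintype.piFinset fun _ : Fin s ⊕ Fin n => Fintype.piFinset fun _ : Fin R => A :
        Finset (Fin s ⊕ Fin n → Fin R → ℤ)) : Set (Fin s ⊕ Fin n → Fin R → ℤ)).Finite :=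
      Finset.finite_toSet _
    refine h1.subset fun m hm => ?_
    rw [Finset.mem_coe, Fintype.mem_piFinset]
    intro i
    rw [Fintype.mem_piFinset]
    exact hm.1 i
  rw [Set.ncard_eq_toFinset_card T hfin]
  refine hC (Fin s ⊕ Fin n) (Fin R) (by rw [Fintype.card_sum, Fintype.card_fin, Fintype.card_fin])
    (Fintype.card_fin R) (Sum.elim τ π) (Sum.elim a u) ?_ (V ^ K) hWf
    (hWr.trans (Nat.pow_le_pow_left hVr _)) A hA _ ?_
  · rintro (l | i)
    · exact LogFam.indep ⟨ha l, hli l⟩
    · exact EllFam.indep (hu i).1 (hu i).2.1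
        ⟨(hu i).2.2.1, fun β hβ h0 => funext fun j => (hu i).2.2.2 β hβ h0 j⟩
  intro m hm
  rw [Set.Finite.mem_toFinset] at hm
  refine ⟨hm.1, fun h => hm.2 ?_⟩
  set t := logarithm τ a m with ht
  set p := point π u m with hp
  have hx : (fun i => (Sum.elim τ π : Fin s ⊕ Fin n → ℂ) i + ∑ j, (m i j : ℂ) *
      (Sum.elim a u : Fin s ⊕ Fin n → Fin R → ℂ) i j) = Sum.elim t p := by
    funext i
    rcases i with l | i <;> rfl
  rw [hx] at h
  have h1K : (1 : ℂ) ∈ V ^ K := Pool.Agent.R350.pow_one_mem h1V K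
  have hpn : ∀ i, p i ∉ (L i).lattice := by
    intro i hi
    refine h.ne hD h1K (Sum.inr i) ?_
    have h2 : p i ∈ V ^ 1 := by
      rw [pow_one]
      exact hlat i _ hi
    exact Pool.Agent.R350.pow_mono_mem h1V (by omega) h2
  refine ⟨hpn, fun P hP h0 y => ?_⟩
  -- the coordinates of the translates
  have hv : ∀ i, ∑ j, (m (Sum.inr i) j : ℂ) * u i j ∈ EL (L i) := fun i =>
    comb_mem_EL (hu i).1 (hu i).2.1 (hu i).2.2.1 _
  choose δ hδ0 hδ using fun i => Pool.Agent.R350.ell_coords (V := V) (hu i).1 (hu i).2.1 h1V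
    (hXV i) (hYV i) (hv i) (hpn i) D
  have hexp : ∀ l, Complex.exp (t l) ∈ V := by
    intro l
    have h2 : Complex.exp (t l) = Complex.exp (∑ j, (m (Sum.inl l) j : ℂ) * a l j) *
        Complex.exp (τ l) := by
      rw [← Complex.exp_add, add_comm]
      rfl
    have h3 : Complex.exp (∑ j, (m (Sum.inl l) j : ℂ) * a l j) ∈ QB := by
      rw [Complex.exp_sum]
      apply prod_mem
      intro j _
      rw [Complex.exp_int_mul]
      exact zpow_mem (mem_QB.2 (ha l j)) _
    rw [h2]
    exact V.smul_mem (⟨_, h3⟩ : Qb) (hτV l)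
  have hscale : ∀ v ∈ monSpan (Sum.elim θ (image L t p)) D, (∏ i, δ i) * v ∈ V ^ K := by
    intro v hv'
    refine Submodule.span_induction (p := fun v _ => (∏ i, δ i) * v ∈ V ^ K) ?_ ?_ ?_ ?_ hv'
    · rintro _ ⟨e, rfl⟩
      have e1 : (∏ i, δ i) * ∏ i, (Sum.elim θ (image L t p)) i ^ (e i : ℕ) =
          ((∏ i, θ i ^ (e (Sum.inl i) : ℕ)) *
            ∏ l, Complex.exp (t l) ^ (e (Sum.inr (Sum.inl l)) : ℕ)) *
          ∏ i, (δ i * (℘[L i] (p i) ^ (e (Sum.inr (Sum.inr (Sum.inl i))) : ℕ) *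
            ℘'[L i] (p i) ^ (e (Sum.inr (Sum.inr (Sum.inr i))) : ℕ))) := by
        rw [Fintype.prod_sum_type, Fintype.prod_sum_type, Fintype.prod_sum_type]
        simp only [image, Sum.elim_inl, Sum.elim_inr, Finset.prod_mul_distrib]
        ring
      rw [e1]
      have hpow : ∀ {x : ℂ}, x ∈ V → ∀ k : ℕ, k ≤ D → x ^ k ∈ V ^ D := fun {x} hx k hk =>
        Pool.Agent.R350.pow_mono_mem h1V hk (Submodule.pow_mem_pow V hx k)
      have m1 := prod_mem_pow (V := V) (Finset.univ : Finset (Fin q))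
        (fun i => θ i ^ (e (Sum.inl i) : ℕ)) (k := D)
        (fun i _ => hpow (hθV i) _ (Nat.le_of_lt_succ (e _).2))
      have m2 := prod_mem_pow (V := V) (Finset.univ : Finset (Fin s))
        (fun l => Complex.exp (t l) ^ (e (Sum.inr (Sum.inl l)) : ℕ)) (k := D)
        (fun l _ => hpow (hexp l) _ (Nat.le_of_lt_succ (e _).2))
      have m3 := prod_mem_pow (V := V) (Finset.univ : Finset (Fin n))
        (fun i => δ i * (℘[L i] (p i) ^ (e (Sum.inr (Sum.inr (Sum.inl i))) : ℕ) *
            ℘'[L i] (p i) ^ (e (Sum.inr (Sum.inr (Sum.inr i))) : ℕ))) (k := 8 * D)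
        (fun i _ => hδ i _ _ (Nat.le_of_lt_succ (e _).2) (Nat.le_of_lt_succ (e _).2))
      rw [Finset.card_univ, Fintype.card_fin] at m1 m2 m3
      refine Pool.Agent.R350.pow_mono_mem h1V ?_ (Pool.Agent.R350.pow_mul_mem
        (Pool.Agent.R350.pow_mul_mem m1 m2 rfl) m3 rfl)
      rw [hK]
      nlinarith
    · rw [mul_zero]
      exact Submodule.zero_mem _
    · intro x y _ _ hx hy
      rw [mul_add]
      exact Submodule.add_mem _ hx hy
    · intro r x _ hx
      rw [mul_smul_comm]
      exact Submodule.smul_mem _ _ hx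
  have hno := Pool.Agent.R350.noRelTot_scale h
    (Finset.prod_ne_zero_iff.2 fun i _ => hδ0 i) hscale
  exact hno.param (Sum.elim θ (image L t p)) P hP h0 y

end Pool.Agent.Results.MP_4aec10_nt.SplitTranslates
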