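import Mathlib
import Pool.Agent.R350.HK

/-!
# Translates of an arbitrary point of `Lie G` by the points of a finitely generated group of the torus

Let `G` be any semiabelian variety over `ℚ̄`, an extension of an abelian variety `A` of dimension `g`
by the torus `𝔾_m^s`.  In suitable coordinates `(u, t)` of `Lie G` (`u ∈ ℂ^g`, `t ∈ ℂ^s`) and for a
local section of `G → A` the components of `exp_G (u, t)` are functions `φ_j (u)` (the coordinates of
`exp_A (u)`) and `f_k (u) e^{t_k}` (for an extension of a product of elliptic curves `f_k` is a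
product of Serre's functions `σ(z+q)/(σ(z)σ(q)) e^{-ζ(q) z}`).  The theorem is stated and proved for
ARBITRARY functions `φ_j`, `f_k` on `ℂ^g`.

Let `r₀ = (u, t)` be an ARBITRARY point of `Lie G`, `w` arbitrary constants (for instance the periods
`Ω_G`), and let `λ_1, …, λ_R` be `ℚ`-linearly independent logarithms of algebraic numbers, which
generate a group `Γ` of rank `R`.  For an `s × R` matrix `a` of integers let
`r = r₀ + (0, a λ)`, so that `exp_G (r)` is the translate of `exp_G (r₀)` by an algebraic point of the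
torus, with coordinates in `Γ`.  Let `Logs` be the space of all linear combinations, with algebraic
coefficients, of `1`, of ALL logarithms of algebraic numbers and of the numbers `t_k`.

There are a number `c`, which depends only on the number of the components and on `D`, but not on `R`,
and a space `F ⊆ Logs` of dimension at most `c`, which depends only on `r₀` and `w`, such that for all
but `C H ^ ((s - 1) R + c)` of the matrices `a` with entries of absolute value at most `H` (there are
`(2 H + 1) ^ (s R)` of them) the components `t_k` of `r` are linearly independent modulo `F`, and every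
relation

  `P (w, u, exp_G (r), t, l_1, …, l_n) = 0`

with algebraic coefficients, of degree at most `D` in each of the numbers `w`, `u`, of the components
of `exp_G (r)` and in each `t_k`, and of degree at most `1` in ARBITRARY elements `l_j` of `Logs` (any
number of them, chosen after `a`), linearly independent modulo `F` and the `t_k`, is an identity in the
`t_k` and the `l_j`.

Thus in degree `D` the torus contributes `s` to the transcendence degree in the problem, over the
field generated by `w`, `u` and `exp_G (r)`: the inequality for `r` reduces to the inequality for the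
point `u` of `Lie A`.

The proof (`Pool.Agent.R350`): the strong six exponentials theorem of D. Roy; derivations of
ultrapowers of `ℂ`.
-/

set_option autoImplicit false

namespace Pool.Agent.Results.MP_4aec10_nt.ToricTranslates

open Module MvPolynomial

/-- the linear combinations, with algebraic coefficients, of `1`, of logarithms of algebraic numbers and
of the numbers `t_k` -/
noncomputable def Logs {s : ℕ} (t : Fin s → ℂ) : Submodule (algebraicClosure ℚ ℂ) ℂ :=
  Submodule.span (algebraicClosure ℚ ℂ) ({1} ∪ {z : ℂ | IsAlgebraic ℚ (Complex.exp z)}) ⊔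
    Submodule.span (algebraicClosure ℚ ℂ) (Set.range t)

/-- the components of `exp_G (u, t)` -/
noncomputable def expG {g N s : ℕ} (φ : Fin N → (Fin g → ℂ) → ℂ) (f : Fin s → (Fin g → ℂ) → ℂ)
    (u : Fin g → ℂ) (t : Fin s → ℂ) : Fin N ⊕ Fin s → ℂ :=
  Sum.elim (fun j => φ j u) (fun k => f k u * Complex.exp (t k))

/-- the numbers `t_k` are linearly independent modulo `F`, and all relations of degree at most `D`
between the numbers `θ_i` and `t_k`, which are linear in elements `l_j` of the space `L` that are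
linearly independent modulo `F` and the `t_k`, are identities in the `t_k` and `l_j` -/
def OnlyTrivial {σ : Type} {s : ℕ} (L F : Submodule (algebraicClosure ℚ ℂ) ℂ) (D : ℕ) (θ : σ → ℂ)
    (t : Fin s → ℂ) : Prop :=
  (∀ c : Fin s → algebraicClosure ℚ ℂ, ∑ k, c k • t k ∈ F → c = 0) ∧
  ∀ (n : ℕ) (l : Fin n → ℂ), (∀ j, l j ∈ L) →
    (∀ c : Fin n → algebraicClosure ℚ ℂ, ∑ j, c j • l j ∈
      F ⊔ Submodule.span (algebraicClosure ℚ ℂ) (Set.range t) → c = 0) →
    ∀ P : MvPolynomial (σ ⊕ (Fin s ⊕ Fin n)) (algebraicClosure ℚ ℂ),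
      (∀ i, P.degreeOf (Sum.inl i) ≤ D) →
      (∀ k, P.degreeOf (Sum.inr (Sum.inl k)) ≤ D) →
      (∀ β ∈ P.support, ∑ j, β (Sum.inr (Sum.inr j)) ≤ 1) →
      aeval (Sum.elim θ (Sum.elim t l)) P = 0 →
      ∀ (t' : Fin s → ℂ) (l' : Fin n → ℂ), aeval (Sum.elim θ (Sum.elim t' l')) P = 0

theorem exp_comb {R : ℕ} (lam : Fin R → ℂ) (hlam : ∀ j, IsAlgebraic ℚ (Complex.exp (lam j)))
    (a : Fin R → ℤ) : Complex.exp (∑ j, (a j : ℂ) * lam j) ∈ algebraicClosure ℚ ℂ := by
  rw [Complex.exp_sum]
  refine prod_mem fun j _ => ?_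
  rw [Complex.exp_int_mul]
  exact zpow_mem (mem_algebraicClosure_iff.2 (hlam j)) _

/-- **Main result.** -/
theorem result (q g N s D : ℕ) : ∃ c : ℕ, ∀ R : ℕ, ∃ C : ℕ,
    ∀ (φ : Fin N → (Fin g → ℂ) → ℂ) (f : Fin s → (Fin g → ℂ) → ℂ) (w : Fin q → ℂ)
      (u : Fin g → ℂ) (t : Fin s → ℂ),
    ∃ F : Submodule (algebraicClosure ℚ ℂ) ℂ, Module.Finite (algebraicClosure ℚ ℂ) F ∧
      finrank (algebraicClosure ℚ ℂ) F ≤ c ∧ F ≤ Logs t ∧
      ∀ lam : Fin R → ℂ, (∀ j, IsAlgebraic ℚ (Complex.exp (lam j))) → LinearIndependent ℚ lam →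
      ∀ H : ℕ, 1 ≤ H → Set.ncard {a : Fin s → Fin R → ℤ | (∀ k j, |a k j| ≤ H) ∧
        ¬ OnlyTrivial (Logs t) F D
          (Sum.elim w (Sum.elim u (expG φ f u (fun k => t k + ∑ j, (a k j : ℂ) * lam j))))
          (fun k => t k + ∑ j, (a k j : ℂ) * lam j)} ≤ C * H ^ ((s - 1) * R + c) := by
  classical
  set m : ℕ := (D + 1) ^ Fintype.card (Fin q ⊕ (Fin g ⊕ (Fin N ⊕ Fin s))) with hm
  refine ⟨Pool.Agent.R350.bigN s D m s + ((m + 1) * (m + 1 + s) * (m + 1) + 1), fun R => ?_⟩
  obtain ⟨K, hK⟩ := Pool.Agent.R350.toric_count s D m R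
  refine ⟨K, fun φ f w u t => ?_⟩
  set θ : Fin q ⊕ (Fin g ⊕ (Fin N ⊕ Fin s)) → ℂ := Sum.elim w (Sum.elim u (expG φ f u t)) with hθ
  set W := Pool.Agent.R350.monS (algebraicClosure ℚ ℂ) D θ with hW
  have hWf : Module.Finite (algebraicClosure ℚ ℂ) W := Pool.Agent.R350.monS_finite D θ
  have hWr : finrank (algebraicClosure ℚ ℂ) W ≤ m := Pool.Agent.R350.monS_rank D θ
  have hfin : FiniteDimensional (algebraicClosure ℚ ℂ)
      (Submodule.span (algebraicClosure ℚ ℂ) (Set.range t)) :=
    FiniteDimensional.span_of_finite _ (Set.finite_range _)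
  have h1 := Pool.Agent.R350.setup_complex.hyp.sup
    (Submodule.span (algebraicClosure ℚ ℂ) (Set.range t))
    ((finrank_range_le_card (R := algebraicClosure ℚ ℂ) t).trans (Fintype.card_fin s).le)
  rw [Nat.zero_add] at h1
  obtain ⟨h2, h3, h4, -⟩ := Pool.Agent.R350.exSp_bound h1
    (Submodule.mem_sup_left Pool.Agent.R350.setup_complex.one) W hWr
  refine ⟨_, h2, h3.trans (Nat.le_add_left _ _), h4, fun lam hlam hli H hH => ?_⟩
  refine le_trans (Set.ncard_le_ncard ?_ ?_) ((hK t lam hlam hli W hWf hWr H hH).trans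
    (Nat.mul_le_mul_left _ (Nat.pow_le_pow_right hH (by omega))))
  · rintro a ⟨ha1, ha2⟩
    refine ⟨ha1, fun h => ha2 ?_⟩
    have he : (fun k => t k + ∑ j, (a k j : algebraicClosure ℚ ℂ) • lam j) =
        fun k => t k + ∑ j, (a k j : ℂ) * lam j := by
      funext k
      congr 1
    rw [he] at h
    refine Pool.Agent.R350.onlyTriv_of h (fun μ hμ => ?_)
    have hγ := fun k => exp_comb lam hlam (a k)
    have h5 : ∏ i, (Sum.elim w (Sum.elim u (expG φ f u
        (fun k => t k + ∑ j, (a k j : ℂ) * lam j)))) i ^ μ i =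
        (∏ k, (⟨_, hγ k⟩ : algebraicClosure ℚ ℂ) ^ μ (Sum.inr (Sum.inr (Sum.inr k)))) •
          ∏ i, θ i ^ μ i := by
      rw [Algebra.smul_def, map_prod]
      simp only [hθ, Fintype.prod_sum_type, Sum.elim_inl, Sum.elim_inr, expG, map_pow,
        Complex.exp_add, mul_pow, Finset.prod_mul_distrib]
      change _ = (∏ k, (Complex.exp (∑ j, (a k j : ℂ) * lam j)) ^ _) * _
      ring
    rw [h5]
    exact W.smul_mem _ (Pool.Agent.R350.mem_monS θ μ hμ)
  · have h5 : ((Fintype.piFinset fun _ : Fin s => Fintype.piFinset fun _ : Fin R =>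
        Finset.Icc (-(H : ℤ)) H : Finset (Fin s → Fin R → ℤ)) :
        Set (Fin s → Fin R → ℤ)).Finite := Finset.finite_toSet _
    refine h5.subset fun A hA => ?_
    rw [Finset.mem_coe, Fintype.mem_piFinset]
    intro i
    rw [Fintype.mem_piFinset]
    intro j
    rw [Finset.mem_Icc, ← abs_le]
    exact hA.1 i j

end Pool.Agent.Results.MP_4aec10_nt.ToricTranslates
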